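import Mathlib

namespace Pool.Agent.R5.OH

/-- coefficients of the unimodular form attached to a point of the upper half-plane -/
noncomputable def fa (q : ℝ × ℝ) : ℝ := 1 / q.2
noncomputable def fb (q : ℝ × ℝ) : ℝ := -q.1 / q.2
noncomputable def fc (q : ℝ × ℝ) : ℝ := (q.1 ^ 2 + q.2 ^ 2) / q.2

/-- value of the form of `q` at `(x, y)` -/
noncomputable def Q (q : ℝ × ℝ) (x y : ℝ) : ℝ := fa q * x ^ 2 + 2 * fb q * x * y + fc q * y ^ 2

/-- polar form -/
noncomputable def B (q : ℝ × ℝ) (x y z w : ℝ) : ℝ :=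
  fa q * x * z + fb q * (x * w + y * z) + fc q * y * w

theorem det_one {q : ℝ × ℝ} (hq : 0 < q.2) : fa q * fc q - fb q ^ 2 = 1 := by
  unfold fa fb fc
  field_simp
  ring

theorem fa_pos {q : ℝ × ℝ} (hq : 0 < q.2) : 0 < fa q := by
  unfold fa; positivity

theorem point_ext {p q : ℝ × ℝ} (hp : 0 < p.2) (hq : 0 < q.2) (h1 : fa p = fa q)
    (h2 : fb p = fb q) : p = q := by
  unfold fa at h1
  have e2 : p.2 = q.2 := by
    have := congrArg (fun t => 1 / t) h1
    simpa using this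
  unfold fb at h2
  have e1 : p.1 = q.1 := by
    rw [e2] at h2
    have := (div_left_inj' hq.ne').mp h2
    linarith
  exact Prod.ext e1 e2

theorem Q_pos {q : ℝ × ℝ} (hq : 0 < q.2) {x y : ℝ} (h : x ≠ 0 ∨ y ≠ 0) : 0 < Q q x y := by
  have ha := fa_pos hq
  have hd := det_one hq
  have key : fa q * Q q x y = (fa q * x + fb q * y) ^ 2 + y ^ 2 := by
    unfold Q
    have : fa q * fc q = 1 + fb q ^ 2 := by linarith
    calc fa q * (fa q * x ^ 2 + 2 * fb q * x * y + fc q * y ^ 2)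
        = fa q ^ 2 * x ^ 2 + 2 * fa q * fb q * x * y + (fa q * fc q) * y ^ 2 := by ring
      _ = fa q ^ 2 * x ^ 2 + 2 * fa q * fb q * x * y + (1 + fb q ^ 2) * y ^ 2 := by rw [this]
      _ = _ := by ring
  have : 0 < fa q * Q q x y := by
    rw [key]
    by_cases hy : y = 0
    · have hx : x ≠ 0 := by
        rcases h with h | h
        · exact h
        · exact absurd hy h
      have : fa q * x ≠ 0 := mul_ne_zero ha.ne' hx
      have h2 : 0 < (fa q * x) ^ 2 := by positivity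
      rw [hy]
      simpa using h2
    · positivity
  exact (pos_iff_pos_of_mul_pos this).mp ha

theorem nz_of_one {q : ℝ × ℝ} {x y : ℝ} (h : Q q x y = 1) : x ≠ 0 ∨ y ≠ 0 := by
  by_contra hc
  push Not at hc
  rw [hc.1, hc.2] at h
  unfold Q at h
  simp at h

theorem gram {q : ℝ × ℝ} (hq : 0 < q.2) (x y z w : ℝ) (hd : x * w - y * z = 1) :
    Q q x y * Q q z w = 1 + B q x y z w ^ 2 := by
  have h := det_one hq
  have : Q q x y * Q q z w - B q x y z w ^ 2
      = (fa q * fc q - fb q ^ 2) * (x * w - y * z) ^ 2 := by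
    unfold Q B; ring
  rw [h, hd] at this
  linarith

theorem Q_comb (q : ℝ × ℝ) (x y z w s t : ℝ) :
    Q q (s * x + t * z) (s * y + t * w)
      = s ^ 2 * Q q x y + 2 * s * t * B q x y z w + t ^ 2 * Q q z w := by
  unfold Q B; ring

/-- the frame orthogonal with respect to `p` -/
theorem frame {p : ℝ × ℝ} (hp : 0 < p.2) {x y : ℝ} (h : x ≠ 0 ∨ y ≠ 0) :
    ∃ z w : ℝ, x * w - y * z = 1 ∧ B p x y z w = 0 := by
  have hA := Q_pos hp h
  refine ⟨-(fb p * x + fc p * y) / Q p x y, (fa p * x + fb p * y) / Q p x y, ?_, ?_⟩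
  · have : x * (fa p * x + fb p * y) + y * (fb p * x + fc p * y) = Q p x y := by
      unfold Q; ring
    field_simp
    linarith
  · unfold B
    field_simp
    ring

theorem Q_norm {q : ℝ × ℝ} (hq : 0 < q.2) {x y z w : ℝ} (hd : x * w - y * z = 1)
    (h1 : Q q x y = 1) (s t : ℝ) :
    Q q (s * x + t * z) (s * y + t * w) = (s + B q x y z w * t) ^ 2 + t ^ 2 := by
  have h := gram hq x y z w hd
  rw [h1, one_mul] at h
  rw [Q_comb, h1, h]; ring

theorem Q_norm_p {p : ℝ × ℝ} (hp : 0 < p.2) {x y z w : ℝ} (hd : x * w - y * z = 1)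
    (h : x ≠ 0 ∨ y ≠ 0) (hB : B p x y z w = 0) (s t : ℝ) :
    Q p (s * x + t * z) (s * y + t * w) = Q p x y * s ^ 2 + t ^ 2 / Q p x y := by
  have hA := Q_pos hp h
  have hg := gram hp x y z w hd
  rw [hB] at hg
  have : Q p z w = 1 / Q p x y := by
    field_simp
    nlinarith
  rw [Q_comb, hB, this]; ring

/-- every vector is a combination of the frame -/
theorem comb {x y z w : ℝ} (hd : x * w - y * z = 1) (X Y : ℝ) :
    ∃ s t : ℝ, X = s * x + t * z ∧ Y = s * y + t * w := by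
  refine ⟨X * w - Y * z, x * Y - y * X, ?_, ?_⟩
  · linear_combination -X * hd
  · linear_combination -Y * hd

theorem B_inj {p q : ℝ × ℝ} (hp : 0 < p.2) (hq : 0 < q.2) {x y z w : ℝ}
    (hd : x * w - y * z = 1) (h1 : Q p x y = 1) (h2 : Q q x y = 1)
    (hB : B p x y z w = B q x y z w) : p = q := by
  have hall : ∀ X Y, Q p X Y = Q q X Y := by
    intro X Y
    obtain ⟨s, t, e1, e2⟩ := comb hd X Y
    rw [e1, e2, Q_norm hp hd h1, Q_norm hq hd h2, hB]
  have e1 := hall 1 0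
  have e2 := hall 0 1
  have e3 := hall 1 1
  unfold Q at e1 e2 e3
  apply point_ext hp hq
  · linarith
  · linarith

/-- three points determine the horocycle -/
theorem three_unique {q1 q2 q3 : ℝ × ℝ} (h1 : 0 < q1.2) (h2 : 0 < q2.2) (h3 : 0 < q3.2)
    (d12 : q1 ≠ q2) (d13 : q1 ≠ q3) (d23 : q2 ≠ q3) {x y x' y' : ℝ}
    (a1 : Q q1 x y = 1) (a2 : Q q2 x y = 1) (a3 : Q q3 x y = 1)
    (b1 : Q q1 x' y' = 1) (b2 : Q q2 x' y' = 1) (b3 : Q q3 x' y' = 1) (p : ℝ × ℝ) :
    Q p x y = Q p x' y' := by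
  obtain ⟨z, w, hd, -⟩ := frame h1 (nz_of_one a1)
  obtain ⟨s, t, e1, e2⟩ := comb hd x' y'
  rw [e1, e2, Q_norm h1 hd a1] at b1
  rw [e1, e2, Q_norm h2 hd a2] at b2
  rw [e1, e2, Q_norm h3 hd a3] at b3
  have n12 : B q1 x y z w ≠ B q2 x y z w := fun h => d12 (B_inj h1 h2 hd a1 a2 h)
  have n13 : B q1 x y z w ≠ B q3 x y z w := fun h => d13 (B_inj h1 h3 hd a1 a3 h)
  have n23 : B q2 x y z w ≠ B q3 x y z w := fun h => d23 (B_inj h2 h3 hd a2 a3 h)
  set β1 := B q1 x y z w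
  set β2 := B q2 x y z w
  set β3 := B q3 x y z w
  have ht : t = 0 := by
    by_contra ht
    have f12 : (β1 - β2) * t * (2 * s + (β1 + β2) * t) = 0 := by linear_combination b1 - b2
    have f13 : (β1 - β3) * t * (2 * s + (β1 + β3) * t) = 0 := by linear_combination b1 - b3
    have g12 : 2 * s + (β1 + β2) * t = 0 := by
      rcases mul_eq_zero.mp f12 with h | h
      · exact absurd h (mul_ne_zero (sub_ne_zero.mpr n12) ht)
      · exact h
    have g13 : 2 * s + (β1 + β3) * t = 0 := by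
      rcases mul_eq_zero.mp f13 with h | h
      · exact absurd h (mul_ne_zero (sub_ne_zero.mpr n13) ht)
      · exact h
    have : (β2 - β3) * t = 0 := by linarith
    exact mul_ne_zero (sub_ne_zero.mpr n23) ht this
  rw [ht] at e1 e2 b1
  have hs : s ^ 2 = 1 := by nlinarith
  rw [e1, e2]
  have : Q p (s * x + 0 * z) (s * y + 0 * w) = s ^ 2 * Q p x y := by unfold Q; ring
  rw [this, hs, one_mul]

/-- the second horocycle through two points of a horocycle -/
theorem second {q1 q2 : ℝ × ℝ} (h1 : 0 < q1.2) (h2 : 0 < q2.2) {x y : ℝ}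
    (a1 : Q q1 x y = 1) (a2 : Q q2 x y = 1) :
    ∃ x' y' : ℝ, Q q1 x' y' = 1 ∧ Q q2 x' y' = 1 ∧
      ∀ q3 : ℝ × ℝ, 0 < q3.2 → q3 ≠ q1 → q3 ≠ q2 → q1 ≠ q2 → Q q3 x y = 1 →
        Q q3 x' y' ≠ 1 := by
  obtain ⟨z, w, hd, -⟩ := frame h1 (nz_of_one a1)
  set β1 := B q1 x y z w with hβ1
  set β2 := B q2 x y z w with hβ2
  set N : ℝ := 1 + (β1 - β2) ^ 2 / 4 with hN
  have hNpos : 0 < N := by positivity
  set t : ℝ := 1 / Real.sqrt N with ht
  have ht2 : t ^ 2 * N = 1 := by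
    rw [ht, div_pow, Real.sq_sqrt hNpos.le]; field_simp
  have htpos : 0 < t := by positivity
  set s : ℝ := -(β1 + β2) * t / 2 with hs
  refine ⟨s * x + t * z, s * y + t * w, ?_, ?_, ?_⟩
  · rw [Q_norm h1 hd a1, ← hβ1]
    rw [hs]
    rw [hN] at ht2
    linear_combination ht2
  · rw [Q_norm h2 hd a2, ← hβ2]
    rw [hs]
    rw [hN] at ht2
    linear_combination ht2
  · intro q3 h3 n31 n32 n12 a3
    rw [Q_norm h3 hd a3]
    intro hc
    have m13 : B q3 x y z w ≠ β1 := fun h => n31 (B_inj h3 h1 hd a3 a1 h)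
    have m23 : B q3 x y z w ≠ β2 := fun h => n32 (B_inj h3 h2 hd a3 a2 h)
    set β3 := B q3 x y z w
    have : (β3 - β1) * (β3 - β2) * t ^ 2 = 0 := by
      rw [hs] at hc
      rw [hN] at ht2
      linear_combination hc - ht2
    have hne : (β3 - β1) * (β3 - β2) * t ^ 2 ≠ 0 := by
      apply mul_ne_zero (mul_ne_zero (sub_ne_zero.mpr m13) (sub_ne_zero.mpr m23))
      positivity
    exact hne this

/-- two points lie on a horocycle -/
theorem first {p q : ℝ × ℝ} (hp : 0 < p.2) (hq : 0 < q.2) :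
    ∃ x y : ℝ, Q p x y = 1 ∧ Q q x y = 1 := by
  have key : ∃ x y : ℝ, (x ≠ 0 ∨ y ≠ 0) ∧ Q p x y = Q q x y := by
    by_cases h : fa p = fa q
    · refine ⟨1, 0, Or.inl one_ne_zero, ?_⟩
      unfold Q; rw [h]; ring
    · have hα : fa p - fa q ≠ 0 := sub_ne_zero.mpr h
      have hD : 0 ≤ (fb p - fb q) ^ 2 - (fa p - fa q) * (fc p - fc q) := by
        have e : (fb p - fb q) ^ 2 - (fa p - fa q) * (fc p - fc q)
            = ((p.1 - q.1) ^ 2 + (p.2 - q.2) ^ 2) / (p.2 * q.2) := by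
          unfold fa fb fc
          field_simp
          ring
        rw [e]; positivity
      set D := (fb p - fb q) ^ 2 - (fa p - fa q) * (fc p - fc q) with hDdef
      refine ⟨(-(fb p - fb q) + Real.sqrt D) / (fa p - fa q), 1, Or.inr one_ne_zero, ?_⟩
      have hsq := Real.sq_sqrt hD
      have : Q p ((-(fb p - fb q) + Real.sqrt D) / (fa p - fa q)) 1
          - Q q ((-(fb p - fb q) + Real.sqrt D) / (fa p - fa q)) 1 = 0 := by
        unfold Q
        field_simp
        have : (fa p - fa q) * (fc p - fc q) = (fb p - fb q) ^ 2 - D := by rw [hDdef]; ring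
        linear_combination (fa p - fa q) * hsq + (fa p - fa q) * this
      linarith
  obtain ⟨x, y, hxy, he⟩ := key
  have hpos := Q_pos hp hxy
  set r := 1 / Real.sqrt (Q p x y) with hr
  have hr2 : r ^ 2 * Q p x y = 1 := by
    rw [hr, div_pow, Real.sq_sqrt hpos.le]; field_simp
  refine ⟨r * x, r * y, ?_, ?_⟩
  · have : Q p (r * x) (r * y) = r ^ 2 * Q p x y := by unfold Q; ring
    rw [this, hr2]
  · have : Q q (r * x) (r * y) = r ^ 2 * Q q x y := by unfold Q; ring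
    rw [this, ← he, hr2]

end Pool.Agent.R5.OH
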