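import Mathlib
import Pool.Agent.R5.OH.Basic

namespace Pool.Agent.R5.OH

/-- strictly between `1` and `1 / A` -/
def Btw (A R : ℝ) : Prop := (R < 1 ∧ 1 / A < R) ∨ (1 < R ∧ R < 1 / A)

theorem kelly_aux (A b1 b2 τ : ℝ) (hA : 0 < A) (hτ : A * τ ^ 2 + 1 / A = (τ + b2) ^ 2 + 1)
    (hb : Btw A (((τ + b1) ^ 2 + 1) / ((τ + b2) ^ 2 + 1))) :
    ∃ s t : ℝ, A * s ^ 2 + t ^ 2 / A = 1 ∧ (s + b2 * t) ^ 2 + t ^ 2 = 1 ∧
      Btw A ((s + b1 * t) ^ 2 + t ^ 2) := by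
  have hN : 0 < (τ + b2) ^ 2 + 1 := by positivity
  set N := (τ + b2) ^ 2 + 1 with hNdef
  set t : ℝ := 1 / Real.sqrt N with ht
  have ht2 : t ^ 2 * N = 1 := by
    rw [ht, div_pow, Real.sq_sqrt hN.le]; field_simp
  refine ⟨τ * t, t, ?_, ?_, ?_⟩
  · have : A * (τ * t) ^ 2 + t ^ 2 / A = t ^ 2 * (A * τ ^ 2 + 1 / A) := by ring
    rw [this, hτ, ht2]
  · have : (τ * t + b2 * t) ^ 2 + t ^ 2 = t ^ 2 * ((τ + b2) ^ 2 + 1) := by ring
    rw [this, ← hNdef, ht2]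
  · have : (τ * t + b1 * t) ^ 2 + t ^ 2 = ((τ + b1) ^ 2 + 1) / N := by
      have : (τ * t + b1 * t) ^ 2 + t ^ 2 = t ^ 2 * ((τ + b1) ^ 2 + 1) := by ring
      rw [this, eq_div_iff hN.ne']
      linear_combination ((τ + b1) ^ 2 + 1) * ht2
    rw [this]; exact hb

theorem kelly_pos (A b1 b2 : ℝ) (hA : 0 < A) (hA1 : A ≠ 1) (h1 : 0 ≤ b1) (h2 : b1 < b2) :
    ∃ s t : ℝ, A * s ^ 2 + t ^ 2 / A = 1 ∧ (s + b2 * t) ^ 2 + t ^ 2 = 1 ∧
      Btw A ((s + b1 * t) ^ 2 + t ^ 2) := by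
  have hb2 : 0 < b2 := lt_of_le_of_lt h1 h2
  rcases lt_or_gt_of_ne hA1 with hlt | hgt
  · -- A < 1
    have hA' : 0 < 1 - A := by linarith
    have hD : 0 ≤ A * b2 ^ 2 + (1 - A) ^ 2 / A := by positivity
    set D := A * b2 ^ 2 + (1 - A) ^ 2 / A with hDdef
    set r := Real.sqrt D with hr
    have hr0 : 0 ≤ r := Real.sqrt_nonneg _
    have hr2 : r ^ 2 = D := Real.sq_sqrt hD
    set σ := (b2 + r) / (1 - A) with hσ
    have hσb : b2 < σ := by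
      rw [hσ, lt_div_iff₀ hA']
      nlinarith
    have hσe : σ * (1 - A) = b2 + r := by rw [hσ]; field_simp
    have hroot : A * (-σ) ^ 2 + 1 / A = (-σ + b2) ^ 2 + 1 := by
      have e : (σ * (1 - A) - b2) ^ 2 = A * b2 ^ 2 + (1 - A) ^ 2 / A := by
        rw [hσe, ← hDdef, ← hr2]; ring
      have e2 : (1 - A) * ((-σ + b2) ^ 2 + 1 - (A * (-σ) ^ 2 + 1 / A)) = 0 := by
        have e3 : (1 - A) ^ 2 / A = (1 - A) * (1 / A - 1) := by field_simp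
        rw [e3] at e
        linear_combination e
      have := (mul_eq_zero.mp e2).resolve_left hA'.ne'
      linarith
    apply kelly_aux A b1 b2 (-σ) hA hroot
    right
    have hN : 0 < (-σ + b2) ^ 2 + 1 := by positivity
    constructor
    · rw [lt_div_iff₀ hN]
      nlinarith
    · rw [div_lt_div_iff₀ hN hA]
      have h3 : A * (-σ) ^ 2 + 1 / A > A * ((-σ + b1) ^ 2 + 1) := by
        have h4 : 1 < 1 / A := by rw [lt_div_iff₀ hA]; linarith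
        have h5 : (-σ + b1) ^ 2 ≤ (-σ) ^ 2 := by nlinarith
        nlinarith
      rw [hroot] at h3
      linarith
  · -- 1 < A
    have hA' : 0 < A - 1 := by linarith
    have hinv : 1 / A < 1 := by rw [div_lt_one hA]; linarith
    have hD : 0 ≤ b2 ^ 2 + (A - 1) * (1 + b2 ^ 2 - 1 / A) := by
      have : 0 ≤ 1 + b2 ^ 2 - 1 / A := by nlinarith [sq_nonneg b2]
      positivity
    set D := b2 ^ 2 + (A - 1) * (1 + b2 ^ 2 - 1 / A) with hDdef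
    set r := Real.sqrt D with hr
    have hr0 : 0 ≤ r := Real.sqrt_nonneg _
    have hr2 : r ^ 2 = D := Real.sq_sqrt hD
    set τ := (b2 + r) / (A - 1) with hτ
    have hτ0 : 0 < τ := by rw [hτ]; positivity
    have hτe : τ * (A - 1) = b2 + r := by rw [hτ]; field_simp
    have hroot : A * τ ^ 2 + 1 / A = (τ + b2) ^ 2 + 1 := by
      have e : (τ * (A - 1) - b2) ^ 2 = b2 ^ 2 + (A - 1) * (1 + b2 ^ 2 - 1 / A) := by
        rw [hτe, ← hDdef, ← hr2]; ring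
      have e2 : (A - 1) * (A * τ ^ 2 + 1 / A - ((τ + b2) ^ 2 + 1)) = 0 := by
        linear_combination e
      have := (mul_eq_zero.mp e2).resolve_left hA'.ne'
      linarith
    apply kelly_aux A b1 b2 τ hA hroot
    left
    have hN : 0 < (τ + b2) ^ 2 + 1 := by positivity
    constructor
    · rw [div_lt_one hN]
      nlinarith
    · rw [div_lt_div_iff₀ hA hN]
      have h3 : A * τ ^ 2 + 1 / A < A * ((τ + b1) ^ 2 + 1) := by
        have h5 : τ ^ 2 ≤ (τ + b1) ^ 2 := by nlinarith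
        nlinarith
      rw [hroot] at h3
      linarith

theorem kelly (A b1 b2 : ℝ) (hA : 0 < A) (hA1 : A ≠ 1)
    (h : (0 ≤ b1 ∧ b1 < b2) ∨ (b2 < b1 ∧ b1 ≤ 0)) :
    ∃ s t : ℝ, A * s ^ 2 + t ^ 2 / A = 1 ∧ (s + b2 * t) ^ 2 + t ^ 2 = 1 ∧
      Btw A ((s + b1 * t) ^ 2 + t ^ 2) := by
  rcases h with ⟨h1, h2⟩ | ⟨h1, h2⟩
  · exact kelly_pos A b1 b2 hA hA1 h1 h2
  · obtain ⟨s, t, e1, e2, e3⟩ := kelly_pos A (-b1) (-b2) hA hA1 (by linarith) (by linarith)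
    refine ⟨s, -t, ?_, ?_, ?_⟩
    · rw [← e1]; ring
    · rw [← e2]; ring
    · have : (s + b1 * -t) ^ 2 + (-t) ^ 2 = (s + -b1 * t) ^ 2 + t ^ 2 := by ring
      rw [this]; exact e3

/-- the descent potential -/
noncomputable def mu (A : ℝ) : ℝ := A + 1 / A

theorem mu_lt {A R : ℝ} (hA : 0 < A) (hR : 0 < R) (h : Btw A R) : mu R < mu A := by
  unfold mu
  have hB : 0 < 1 / A := by positivity
  have key : A + 1 / A - (R + 1 / R) = (1 / A - R) * (1 / A * R - 1) / (1 / A * R) := by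
    field_simp
    ring
  have : 0 < (1 / A - R) * (1 / A * R - 1) / (1 / A * R) := by
    apply div_pos _ (by positivity)
    rcases h with ⟨h1, h2⟩ | ⟨h1, h2⟩
    · apply mul_pos_of_neg_of_neg
      · linarith
      · nlinarith
    · apply mul_pos
      · linarith
      · nlinarith
  linarith

/-- among three distinct reals there are two on the same closed side of `0`, in a good order -/
theorem pigeon (b1 b2 b3 : ℝ) (h12 : b1 ≠ b2) (h13 : b1 ≠ b3) (h23 : b2 ≠ b3)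
    (S : ℝ → ℝ → Prop) (hS : ∀ a b, ((0 ≤ a ∧ a < b) ∨ (b < a ∧ a ≤ 0)) → S a b) :
    S b1 b2 ∨ S b2 b1 ∨ S b1 b3 ∨ S b3 b1 ∨ S b2 b3 ∨ S b3 b2 := by
  have key : ∀ a b : ℝ, a ≠ b → ((0 ≤ a ∧ 0 ≤ b) ∨ (a ≤ 0 ∧ b ≤ 0)) → S a b ∨ S b a := by
    intro a b hab h
    rcases lt_or_gt_of_ne hab with hl | hl
    · rcases h with ⟨h1, h2⟩ | ⟨h1, h2⟩
      · exact Or.inl (hS a b (Or.inl ⟨h1, hl⟩))
      · exact Or.inr (hS b a (Or.inr ⟨hl, h2⟩))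
    · rcases h with ⟨h1, h2⟩ | ⟨h1, h2⟩
      · exact Or.inr (hS b a (Or.inl ⟨h2, hl⟩))
      · exact Or.inl (hS a b (Or.inr ⟨hl, h1⟩))
  rcases le_total 0 b1 with p1 | p1 <;> rcases le_total 0 b2 with p2 | p2 <;>
    rcases le_total 0 b3 with p3 | p3
  · have := key b1 b2 h12 (Or.inl ⟨p1, p2⟩); tauto
  · have := key b1 b2 h12 (Or.inl ⟨p1, p2⟩); tauto
  · have := key b1 b3 h13 (Or.inl ⟨p1, p3⟩); tauto
  · have := key b2 b3 h23 (Or.inr ⟨p2, p3⟩); tauto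
  · have := key b2 b3 h23 (Or.inl ⟨p2, p3⟩); tauto
  · have := key b1 b3 h13 (Or.inr ⟨p1, p3⟩); tauto
  · have := key b1 b2 h12 (Or.inr ⟨p1, p2⟩); tauto
  · have := key b1 b2 h12 (Or.inr ⟨p1, p2⟩); tauto

/-- the Kelly step -/
theorem step {p q1 q2 q3 : ℝ × ℝ} (hp : 0 < p.2) (h1 : 0 < q1.2) (h2 : 0 < q2.2)
    (h3 : 0 < q3.2) (d12 : q1 ≠ q2) (d13 : q1 ≠ q3) (d23 : q2 ≠ q3) {x y : ℝ}
    (a1 : Q q1 x y = 1) (a2 : Q q2 x y = 1) (a3 : Q q3 x y = 1) (hpx : Q p x y ≠ 1) :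
    ∃ q q' : ℝ × ℝ, q ∈ ({q1, q2, q3} : Set (ℝ × ℝ)) ∧ q' ∈ ({q1, q2, q3} : Set (ℝ × ℝ)) ∧
      ∃ x' y' : ℝ, Q p x' y' = 1 ∧ Q q x' y' = 1 ∧ Q q' x' y' ≠ 1 ∧
        mu (Q q' x' y') < mu (Q p x y) := by
  have hxy := nz_of_one a1
  obtain ⟨z, w, hd, hB⟩ := frame hp hxy
  have hA := Q_pos hp hxy
  have n12 : B q1 x y z w ≠ B q2 x y z w := fun h => d12 (B_inj h1 h2 hd a1 a2 h)
  have n13 : B q1 x y z w ≠ B q3 x y z w := fun h => d13 (B_inj h1 h3 hd a1 a3 h)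
  have n23 : B q2 x y z w ≠ B q3 x y z w := fun h => d23 (B_inj h2 h3 hd a2 a3 h)
  have gen : ∀ q' q : ℝ × ℝ, 0 < q'.2 → 0 < q.2 → Q q' x y = 1 → Q q x y = 1 →
      (∃ s t : ℝ, Q p x y * s ^ 2 + t ^ 2 / Q p x y = 1 ∧
        (s + B q x y z w * t) ^ 2 + t ^ 2 = 1 ∧
        Btw (Q p x y) ((s + B q' x y z w * t) ^ 2 + t ^ 2)) →
      ∃ x' y' : ℝ, Q p x' y' = 1 ∧ Q q x' y' = 1 ∧ Q q' x' y' ≠ 1 ∧
        mu (Q q' x' y') < mu (Q p x y) := by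
    intro q' q hq' hq c1 c2 hst
    obtain ⟨s, t, e1, e2, e3⟩ := hst
    have f1 : Q p (s * x + t * z) (s * y + t * w) = 1 := by
      rw [Q_norm_p hp hd hxy hB, e1]
    have f2 : Q q (s * x + t * z) (s * y + t * w) = 1 := by
      rw [Q_norm hq hd c2, e2]
    have f3 : Q q' (s * x + t * z) (s * y + t * w) = (s + B q' x y z w * t) ^ 2 + t ^ 2 :=
      Q_norm hq' hd c1 s t
    refine ⟨s * x + t * z, s * y + t * w, f1, f2, ?_, ?_⟩
    · rw [f3]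
      rcases e3 with ⟨g1, -⟩ | ⟨g1, -⟩
      · exact g1.ne
      · exact g1.ne'
    · have hpos : 0 < Q q' (s * x + t * z) (s * y + t * w) := Q_pos hq' (nz_of_one f1)
      rw [f3] at hpos ⊢
      exact mu_lt hA hpos e3
  have := pigeon (B q1 x y z w) (B q2 x y z w) (B q3 x y z w) n12 n13 n23
    (fun a b => ∃ s t : ℝ, Q p x y * s ^ 2 + t ^ 2 / Q p x y = 1 ∧
        (s + b * t) ^ 2 + t ^ 2 = 1 ∧ Btw (Q p x y) ((s + a * t) ^ 2 + t ^ 2))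
    (fun a b h => kelly (Q p x y) a b hA hpx h)
  rcases this with h | h | h | h | h | h
  · exact ⟨q2, q1, by simp, by simp, gen q1 q2 h1 h2 a1 a2 h⟩
  · exact ⟨q1, q2, by simp, by simp, gen q2 q1 h2 h1 a2 a1 h⟩
  · exact ⟨q3, q1, by simp, by simp, gen q1 q3 h1 h3 a1 a3 h⟩
  · exact ⟨q1, q3, by simp, by simp, gen q3 q1 h3 h1 a3 a1 h⟩
  · exact ⟨q3, q2, by simp, by simp, gen q2 q3 h2 h3 a2 a3 h⟩
  · exact ⟨q2, q3, by simp, by simp, gen q3 q2 h3 h2 a3 a2 h⟩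

end Pool.Agent.R5.OH
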