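import Mathlib
import Pool.Agent.R5.OH.Kelly

namespace Pool.Agent.R5.OH

open Classical in
/-- points of `P` on the horocycle of `(x, y)` -/
noncomputable def tr (P : Finset (ℝ × ℝ)) (x y : ℝ) : Finset (ℝ × ℝ) :=
  P.filter (fun q => Q q x y = 1)

theorem mem_tr {P : Finset (ℝ × ℝ)} {x y : ℝ} {q : ℝ × ℝ} :
    q ∈ tr P x y ↔ q ∈ P ∧ Q q x y = 1 := by
  unfold tr; rw [Finset.mem_filter]

/-- the values of the potential -/
def V (P : Finset (ℝ × ℝ)) : Set ℝ :=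
  {m | ∃ p ∈ P, ∃ x y : ℝ, 3 ≤ (tr P x y).card ∧ Q p x y ≠ 1 ∧ m = mu (Q p x y)}

open Classical in
theorem V_finite (P : Finset (ℝ × ℝ)) (hP : ∀ q ∈ P, 0 < q.2) : (V P).Finite := by
  let F : (ℝ × ℝ) × Finset (ℝ × ℝ) → ℝ := fun pT =>
    if h : ∃ x y : ℝ, tr P x y = pT.2 then mu (Q pT.1 h.choose h.choose_spec.choose) else 0
  apply Set.Finite.subset ((P ×ˢ P.powerset).finite_toSet.image F)
  rintro m ⟨p, hp, x, y, hc, -, rfl⟩
  refine ⟨(p, tr P x y), ?_, ?_⟩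
  · rw [Finset.mem_coe, Finset.mem_product]
    refine ⟨hp, ?_⟩
    rw [Finset.mem_powerset]
    exact Finset.filter_subset _ _
  · have h : ∃ x' y' : ℝ, tr P x' y' = tr P x y := ⟨x, y, rfl⟩
    have hF : F (p, tr P x y) = mu (Q p h.choose h.choose_spec.choose) := by
      simp only [F]
      rw [dif_pos h]
    rw [hF]
    have hspec : tr P h.choose h.choose_spec.choose = tr P x y := h.choose_spec.choose_spec
    obtain ⟨q1, m1, q2, m2, q3, m3, d12, d13, d23⟩ := Finset.two_lt_card.mp (by omega : 2 < (tr P x y).card)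
    have n1 := m1
    have n2 := m2
    have n3 := m3
    rw [← hspec] at n1 n2 n3
    rw [mem_tr] at m1 m2 m3 n1 n2 n3
    rw [three_unique (hP _ m1.1) (hP _ m2.1) (hP _ m3.1) d12 d13 d23 n1.2 n2.2 n3.2
      m1.2 m2.2 m3.2 p]

theorem exists_ordinary (P : Finset (ℝ × ℝ)) (hP : ∀ q ∈ P, 0 < q.2) (h2 : 2 ≤ P.card) :
    ∃ x y : ℝ, (tr P x y).card = 2 := by
  by_contra hno
  push Not at hno
  have three : ∀ x y : ℝ, ∀ p ∈ P, ∀ q ∈ P, p ≠ q → Q p x y = 1 → Q q x y = 1 →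
      3 ≤ (tr P x y).card := by
    intro x y p hp q hq hpq e1 e2
    have : 1 < (tr P x y).card :=
      Finset.one_lt_card.mpr ⟨p, mem_tr.mpr ⟨hp, e1⟩, q, mem_tr.mpr ⟨hq, e2⟩, hpq⟩
    have := hno x y
    omega
  have hne : (V P).Nonempty := by
    obtain ⟨a, ha, b, hb, hab⟩ := Finset.one_lt_card.mp (by omega : 1 < P.card)
    obtain ⟨x, y, e1, e2⟩ := first (hP a ha) (hP b hb)
    obtain ⟨x', y', f1, f2, f3⟩ := second (hP a ha) (hP b hb) e1 e2
    have t1 := three x y a ha b hb hab e1 e2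
    have t2 := three x' y' a ha b hb hab f1 f2
    have : ∃ c ∈ tr P x' y', c ≠ a ∧ c ≠ b := by
      by_contra hc
      push Not at hc
      have hsub : tr P x' y' ⊆ {a, b} := by
        intro c hcm
        by_cases hca : c = a
        · simp [hca]
        · simp [hc c hcm hca]
      have h1 := Finset.card_le_card hsub
      have h2 := Finset.card_le_two (a := a) (b := b)
      omega
    obtain ⟨c, hc, hca, hcb⟩ := this
    rw [mem_tr] at hc
    refine ⟨mu (Q c x y), c, hc.1, x, y, t1, ?_, rfl⟩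
    intro hcx
    exact f3 c (hP c hc.1) hca hcb hab hcx hc.2
  obtain ⟨m, hm, hmin⟩ := Set.exists_min_image (V P) id (V_finite P hP) hne
  obtain ⟨p, hp, x, y, hc, hpx, rfl⟩ := hm
  obtain ⟨q1, m1, q2, m2, q3, m3, d12, d13, d23⟩ :=
    Finset.two_lt_card.mp (by omega : 2 < (tr P x y).card)
  obtain ⟨q, q', hq, hq', x', y', e1, e2, e3, e4⟩ :=
    step (hP p hp) (hP _ (mem_tr.mp m1).1) (hP _ (mem_tr.mp m2).1) (hP _ (mem_tr.mp m3).1)
      d12 d13 d23 (mem_tr.mp m1).2 (mem_tr.mp m2).2 (mem_tr.mp m3).2 hpx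
  have hmem : ∀ r, r ∈ ({q1, q2, q3} : Set (ℝ × ℝ)) → r ∈ tr P x y := by
    rintro r (rfl | rfl | rfl)
    · exact m1
    · exact m2
    · exact m3
  have hqT := mem_tr.mp (hmem q hq)
  have hqT' := mem_tr.mp (hmem q' hq')
  have hpq : p ≠ q := fun h => hpx (h ▸ hqT.2)
  have t := three x' y' p hp q hqT.1 hpq e1 e2
  have := hmin (mu (Q q' x' y')) ⟨q', hqT'.1, x', y', t, e3, rfl⟩
  simp only [id] at this
  linarith

end Pool.Agent.R5.OH
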