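import Mathlib
import Pool.Agent.R5.OH.Main

namespace Pool.Agent.R5.OH

/-- The horocycles of the upper half-plane `{(x, y) | 0 < y}`: horizontal lines, and circles
tangent to the real axis (without the point of tangency). -/
def IsHorocycle (H : Set (ℝ × ℝ)) : Prop :=
  (∃ c : ℝ, 0 < c ∧ H = {q | q.2 = c}) ∨
  (∃ t s : ℝ, 0 < s ∧ H = {q | 0 < q.2 ∧ (q.1 - t) ^ 2 + q.2 ^ 2 = s * q.2})

/-- The horocycles containing exactly two points of `P`. -/
def ordinary (P : Finset (ℝ × ℝ)) : Set (Set (ℝ × ℝ)) :=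
  {H | IsHorocycle H ∧ ((P : Set (ℝ × ℝ)) ∩ H).ncard = 2}

/-- The least number of ordinary horocycles of a set of `n` points of the upper half-plane. -/
noncomputable def m (n : ℕ) : ℕ∞ :=
  ⨅ P : {P : Finset (ℝ × ℝ) // P.card = n ∧ ∀ q ∈ P, 0 < q.2}, (ordinary P.1).encard

/-- the horocycle of a vector -/
def hor (x y : ℝ) : Set (ℝ × ℝ) := {q | 0 < q.2 ∧ Q q x y = 1}

theorem isHorocycle_hor {x y : ℝ} (h : x ≠ 0 ∨ y ≠ 0) : IsHorocycle (hor x y) := by
  by_cases hy : y = 0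
  · have hx : x ≠ 0 := h.resolve_right (not_not.mpr hy)
    left
    refine ⟨x ^ 2, by positivity, ?_⟩
    ext q
    simp only [hor, Set.mem_setOf_eq, hy]
    constructor
    · rintro ⟨h1, h2⟩
      unfold Q fa at h2
      field_simp at h2
      linarith
    · intro h1
      have h0 : 0 < q.2 := by rw [h1]; positivity
      refine ⟨h0, ?_⟩
      unfold Q fa
      rw [h1]
      field_simp
      ring
  · right
    refine ⟨x / y, 1 / y ^ 2, by positivity, ?_⟩
    ext q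
    simp only [hor, Set.mem_setOf_eq]
    constructor
    · rintro ⟨h1, h2⟩
      refine ⟨h1, ?_⟩
      unfold Q fa fb fc at h2
      field_simp at h2 ⊢
      linarith
    · rintro ⟨h1, h2⟩
      refine ⟨h1, ?_⟩
      unfold Q fa fb fc
      field_simp at h2 ⊢
      linarith

theorem exists_hor {H : Set (ℝ × ℝ)} (h : IsHorocycle H) :
    ∃ x y : ℝ, (x ≠ 0 ∨ y ≠ 0) ∧ H = hor x y := by
  rcases h with ⟨c, hc, rfl⟩ | ⟨t, s, hs, rfl⟩
  · have hc2 : Real.sqrt c ^ 2 = c := Real.sq_sqrt hc.le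
    refine ⟨Real.sqrt c, 0, Or.inl (Real.sqrt_pos.mpr hc).ne', ?_⟩
    ext q
    simp only [hor, Set.mem_setOf_eq]
    constructor
    · intro h1
      refine ⟨by rw [h1]; exact hc, ?_⟩
      unfold Q fa
      rw [h1, hc2]
      field_simp
      ring
    · rintro ⟨h1, h2⟩
      unfold Q fa at h2
      rw [hc2] at h2
      field_simp at h2
      linarith
  · have hs2 : Real.sqrt s ^ 2 = s := Real.sq_sqrt hs.le
    have hsp : 0 < Real.sqrt s := Real.sqrt_pos.mpr hs
    refine ⟨t / Real.sqrt s, 1 / Real.sqrt s, Or.inr (by positivity), ?_⟩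
    have hQ : ∀ q : ℝ × ℝ, 0 < q.2 → Q q (t / Real.sqrt s) (1 / Real.sqrt s)
        = ((q.1 - t) ^ 2 + q.2 ^ 2) / (s * q.2) := by
      intro q hq
      have : Q q (t / Real.sqrt s) (1 / Real.sqrt s)
          = (fa q * t ^ 2 + 2 * fb q * t + fc q) / (Real.sqrt s ^ 2) := by
        unfold Q; field_simp
      rw [this, hs2]
      unfold fa fb fc
      field_simp
      ring
    ext q
    simp only [hor, Set.mem_setOf_eq]
    constructor
    · rintro ⟨h1, h2⟩
      refine ⟨h1, ?_⟩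
      rw [hQ q h1, div_eq_one_iff_eq (by positivity)]
      exact h2
    · rintro ⟨h1, h2⟩
      refine ⟨h1, ?_⟩
      rw [hQ q h1, div_eq_one_iff_eq (by positivity)] at h2
      exact h2

theorem inter_hor (P : Finset (ℝ × ℝ)) (hP : ∀ q ∈ P, 0 < q.2) (x y : ℝ) :
    (P : Set (ℝ × ℝ)) ∩ hor x y = (tr P x y : Set (ℝ × ℝ)) := by
  ext q
  simp only [hor, Set.mem_inter_iff, Finset.mem_coe, Set.mem_setOf_eq, mem_tr]
  constructor
  · rintro ⟨h1, -, h2⟩; exact ⟨h1, h2⟩
  · rintro ⟨h1, h2⟩; exact ⟨h1, hP q h1, h2⟩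

theorem hor_mem_ordinary {P : Finset (ℝ × ℝ)} (hP : ∀ q ∈ P, 0 < q.2) {x y : ℝ}
    (h : (tr P x y).card = 2) : hor x y ∈ ordinary P := by
  have hne : (tr P x y).Nonempty := by
    rw [← Finset.card_pos]; omega
  obtain ⟨q, hq⟩ := hne
  refine ⟨isHorocycle_hor (nz_of_one (mem_tr.mp hq).2), ?_⟩
  rw [inter_hor P hP, Set.ncard_coe_finset, h]

theorem one_le_m (n : ℕ) (hn : 2 ≤ n) : 1 ≤ m n := by
  unfold m
  apply le_iInf
  rintro ⟨P, hc, hP⟩
  obtain ⟨x, y, h⟩ := exists_ordinary P hP (by omega)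
  rw [Set.one_le_encard_iff_nonempty]
  exact ⟨_, hor_mem_ordinary hP h⟩

end Pool.Agent.R5.OH
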