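import Mathlib
import Pool.Agent.R5.OH.Horo

namespace Pool.Agent.R5.OH

theorem Q_neg (q : ℝ × ℝ) (x y : ℝ) : Q q (-x) (-y) = Q q x y := by
  unfold Q; ring

/-- there are at most two horocycles through two points -/
theorem third {q1 q2 : ℝ × ℝ} (h1 : 0 < q1.2) (h2 : 0 < q2.2) (d : q1 ≠ q2)
    {x y x' y' x'' y'' : ℝ}
    (a1 : Q q1 x y = 1) (a2 : Q q2 x y = 1) (b1 : Q q1 x' y' = 1) (b2 : Q q2 x' y' = 1)
    (c1 : Q q1 x'' y'' = 1) (c2 : Q q2 x'' y'' = 1) :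
    (∀ q, Q q x y = Q q x' y') ∨ (∀ q, Q q x y = Q q x'' y'') ∨
      (∀ q, Q q x' y' = Q q x'' y'') := by
  obtain ⟨z, w, hd, -⟩ := frame h1 (nz_of_one a1)
  obtain ⟨s, t, e1, e2⟩ := comb hd x' y'
  obtain ⟨s', t', e1', e2'⟩ := comb hd x'' y''
  have n12 : B q1 x y z w ≠ B q2 x y z w := fun h => d (B_inj h1 h2 hd a1 a2 h)
  rw [e1, e2, Q_norm h1 hd a1] at b1
  rw [e1, e2, Q_norm h2 hd a2] at b2
  rw [e1', e2', Q_norm h1 hd a1] at c1
  rw [e1', e2', Q_norm h2 hd a2] at c2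
  rw [e1, e2, e1', e2']
  set β1 := B q1 x y z w
  set β2 := B q2 x y z w
  have z0 : ∀ (σ : ℝ) (q : ℝ × ℝ), σ ^ 2 = 1 →
      Q q (σ * x + 0 * z) (σ * y + 0 * w) = Q q x y := by
    intro σ q hσ
    have : Q q (σ * x + 0 * z) (σ * y + 0 * w) = σ ^ 2 * Q q x y := by unfold Q; ring
    rw [this, hσ, one_mul]
  by_cases ht : t = 0
  · left
    intro q
    rw [ht] at b1 ⊢
    exact (z0 s q (by nlinarith)).symm
  by_cases ht' : t' = 0
  · right; left
    intro q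
    rw [ht'] at c1 ⊢
    exact (z0 s' q (by nlinarith)).symm
  right; right
  have g : 2 * s + (β1 + β2) * t = 0 := by
    have f : (β1 - β2) * t * (2 * s + (β1 + β2) * t) = 0 := by linear_combination b1 - b2
    exact (mul_eq_zero.mp f).resolve_left (mul_ne_zero (sub_ne_zero.mpr n12) ht)
  have g' : 2 * s' + (β1 + β2) * t' = 0 := by
    have f : (β1 - β2) * t' * (2 * s' + (β1 + β2) * t') = 0 := by linear_combination c1 - c2
    exact (mul_eq_zero.mp f).resolve_left (mul_ne_zero (sub_ne_zero.mpr n12) ht')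
  have hs : s = -(β1 + β2) * t / 2 := by linarith
  have hs' : s' = -(β1 + β2) * t' / 2 := by linarith
  have k : t ^ 2 * (1 + (β1 - β2) ^ 2 / 4) = 1 := by
    rw [hs] at b1; linear_combination b1
  have k' : t' ^ 2 * (1 + (β1 - β2) ^ 2 / 4) = 1 := by
    rw [hs'] at c1; linear_combination c1
  have hN : (1 + (β1 - β2) ^ 2 / 4) ≠ 0 := by positivity
  have hsq : t ^ 2 = t' ^ 2 := mul_right_cancel₀ hN (k.trans k'.symm)
  rcases sq_eq_sq_iff_eq_or_eq_neg.mp hsq with h | h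
  · have : s = s' := by rw [hs, hs', h]
    intro q
    rw [this, h]
  · have : s = -s' := by rw [hs, hs', h]; ring
    intro q
    rw [this, h]
    have e : Q q (-s' * x + -t' * z) (-s' * y + -t' * w)
        = Q q (-(s' * x + t' * z)) (-(s' * y + t' * w)) := by
      congr 1 <;> ring
    rw [e, Q_neg]

theorem pair_ord {P : Finset (ℝ × ℝ)} (hP : ∀ q ∈ P, 0 < q.2) {a b d : ℝ × ℝ}
    (ha : a ∈ P) (hb : b ∈ P) (hab : a ≠ b)
    (h : ∀ c ∈ P, c ≠ a → c ≠ b → c ≠ d →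
      ∀ x y, Q a x y = 1 → Q b x y = 1 → Q c x y ≠ 1) :
    ∃ x y : ℝ, tr P x y = {a, b} := by
  obtain ⟨x, y, e1, e2⟩ := first (hP a ha) (hP b hb)
  obtain ⟨x', y', f1, f2, f3⟩ := second (hP a ha) (hP b hb) e1 e2
  have key : ∀ X Y : ℝ, Q a X Y = 1 → Q b X Y = 1 →
      (d ∈ P → d ≠ a → d ≠ b → Q d X Y ≠ 1) → tr P X Y = {a, b} := by
    intro X Y g1 g2 g3
    ext c
    rw [mem_tr, Finset.mem_insert, Finset.mem_singleton]
    constructor
    · rintro ⟨hc, hc1⟩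
      by_contra hn
      push Not at hn
      by_cases hcd : c = d
      · subst hcd; exact g3 hc hn.1 hn.2 hc1
      · exact h c hc hn.1 hn.2 hcd X Y g1 g2 hc1
    · rintro (rfl | rfl)
      · exact ⟨ha, g1⟩
      · exact ⟨hb, g2⟩
  by_cases hd : d ∈ P ∧ d ≠ a ∧ d ≠ b ∧ Q d x y = 1
  · exact ⟨x', y', key x' y' f1 f2 (fun h1 h2 h3 => f3 d (hP d h1) h2 h3 hab hd.2.2.2)⟩
  · exact ⟨x, y, key x y e1 e2 (fun h1 h2 h3 h4 => hd ⟨h1, h2, h3, h4⟩)⟩

theorem pair_ord' {P : Finset (ℝ × ℝ)} (hP : ∀ q ∈ P, 0 < q.2) {a b : ℝ × ℝ}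
    (ha : a ∈ P) (hb : b ∈ P) (hab : a ≠ b) {x y : ℝ} (hall : ∀ q ∈ P, Q q x y = 1) :
    ∃ x y : ℝ, tr P x y = {a, b} := by
  obtain ⟨x', y', f1, f2, f3⟩ := second (hP a ha) (hP b hb) (hall a ha) (hall b hb)
  refine ⟨x', y', ?_⟩
  ext c
  rw [mem_tr, Finset.mem_insert, Finset.mem_singleton]
  constructor
  · rintro ⟨hc, hc1⟩
    by_contra hn
    push Not at hn
    exact f3 c (hP c hc) hn.1 hn.2 hab (hall c hc) hc1
  · rintro (rfl | rfl)
    · exact ⟨ha, f1⟩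
    · exact ⟨hb, f2⟩

theorem three_le {P : Finset (ℝ × ℝ)} (hP : ∀ q ∈ P, 0 < q.2) {a b c : ℝ × ℝ}
    (hab : a ≠ b) (hac : a ≠ c) (hbc : b ≠ c)
    (h1 : ∃ x y : ℝ, tr P x y = {a, b}) (h2 : ∃ x y : ℝ, tr P x y = {a, c})
    (h3 : ∃ x y : ℝ, tr P x y = {b, c}) : 3 ≤ (ordinary P).encard := by
  obtain ⟨x1, y1, t1⟩ := h1
  obtain ⟨x2, y2, t2⟩ := h2
  obtain ⟨x3, y3, t3⟩ := h3
  have m1 : hor x1 y1 ∈ ordinary P :=
    hor_mem_ordinary hP (by rw [t1]; exact Finset.card_pair hab)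
  have m2 : hor x2 y2 ∈ ordinary P :=
    hor_mem_ordinary hP (by rw [t2]; exact Finset.card_pair hac)
  have m3 : hor x3 y3 ∈ ordinary P :=
    hor_mem_ordinary hP (by rw [t3]; exact Finset.card_pair hbc)
  have i1 := inter_hor P hP x1 y1
  have i2 := inter_hor P hP x2 y2
  have i3 := inter_hor P hP x3 y3
  rw [t1] at i1
  rw [t2] at i2
  rw [t3] at i3
  have n12 : hor x1 y1 ≠ hor x2 y2 := by
    intro h
    rw [h, i2] at i1
    have : ({a, c} : Finset (ℝ × ℝ)) = {a, b} := Finset.coe_injective i1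
    have hb : b ∈ ({a, c} : Finset (ℝ × ℝ)) := by rw [this]; simp
    simp only [Finset.mem_insert, Finset.mem_singleton] at hb
    rcases hb with hb | hb
    · exact hab hb.symm
    · exact hbc hb
  have n13 : hor x1 y1 ≠ hor x3 y3 := by
    intro h
    rw [h, i3] at i1
    have : ({b, c} : Finset (ℝ × ℝ)) = {a, b} := Finset.coe_injective i1
    have hb : a ∈ ({b, c} : Finset (ℝ × ℝ)) := by rw [this]; simp
    simp only [Finset.mem_insert, Finset.mem_singleton] at hb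
    rcases hb with hb | hb
    · exact hab hb
    · exact hac hb
  have n23 : hor x2 y2 ≠ hor x3 y3 := by
    intro h
    rw [h, i3] at i2
    have : ({b, c} : Finset (ℝ × ℝ)) = {a, c} := Finset.coe_injective i2
    have hb : a ∈ ({b, c} : Finset (ℝ × ℝ)) := by rw [this]; simp
    simp only [Finset.mem_insert, Finset.mem_singleton] at hb
    rcases hb with hb | hb
    · exact hab hb
    · exact hac hb
  have hcard : ({hor x1 y1, hor x2 y2, hor x3 y3} : Set (Set (ℝ × ℝ))).encard = 3 := by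
    rw [Set.encard_eq_three]
    exact ⟨_, _, _, n12, n13, n23, rfl⟩
  rw [← hcard]
  apply Set.encard_le_encard
  rintro H (rfl | rfl | rfl)
  · exact m1
  · exact m2
  · exact m3

theorem poncelet {a b c d : ℝ × ℝ} (ha : 0 < a.2) (hb : 0 < b.2) (hc : 0 < c.2) (hd : 0 < d.2)
    (dab : a ≠ b) (dac : a ≠ c) (dbc : b ≠ c) {x y : ℝ}
    (e1 : Q a x y = 1) (e2 : Q b x y = 1) (e3 : Q c x y = 1) (e4 : Q d x y ≠ 1)
    (hab : ∃ X Y, Q a X Y = 1 ∧ Q b X Y = 1 ∧ Q d X Y = 1)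
    (hac : ∃ X Y, Q a X Y = 1 ∧ Q c X Y = 1 ∧ Q d X Y = 1)
    (hbc : ∃ X Y, Q b X Y = 1 ∧ Q c X Y = 1 ∧ Q d X Y = 1) : False := by
  have hxy := nz_of_one e1
  obtain ⟨z, w, hdet, hB⟩ := frame hd hxy
  have hA := Q_pos hd hxy
  have nab : B a x y z w ≠ B b x y z w := fun h => dab (B_inj ha hb hdet e1 e2 h)
  have nac : B a x y z w ≠ B c x y z w := fun h => dac (B_inj ha hc hdet e1 e3 h)
  have nbc : B b x y z w ≠ B c x y z w := fun h => dbc (B_inj hb hc hdet e2 e3 h)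
  have rel : ∀ p q : ℝ × ℝ, 0 < p.2 → 0 < q.2 → Q p x y = 1 → Q q x y = 1 →
      B p x y z w ≠ B q x y z w →
      (∃ X Y, Q p X Y = 1 ∧ Q q X Y = 1 ∧ Q d X Y = 1) →
      (Q d x y) ^ 2 * (B p x y z w + B q x y z w) ^ 2 + 4
        = 4 * Q d x y + Q d x y * (B p x y z w - B q x y z w) ^ 2 := by
    rintro p q hp hq c1 c2 hn ⟨X, Y, g1, g2, g3⟩
    obtain ⟨s, t, f1, f2⟩ := comb hdet X Y
    rw [f1, f2, Q_norm hp hdet c1] at g1
    rw [f1, f2, Q_norm hq hdet c2] at g2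
    rw [f1, f2, Q_norm_p hd hdet hxy hB] at g3
    set A := Q d x y
    set β := B p x y z w
    set γ := B q x y z w
    have ht : t ≠ 0 := by
      intro ht
      rw [ht] at g1 g3
      have hs : s ^ 2 = 1 := by nlinarith
      rw [hs] at g3
      apply e4
      simpa using g3
    have g : 2 * s + (β + γ) * t = 0 := by
      have f : (β - γ) * t * (2 * s + (β + γ) * t) = 0 := by linear_combination g1 - g2
      exact (mul_eq_zero.mp f).resolve_left (mul_ne_zero (sub_ne_zero.mpr hn) ht)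
    have hs : s = -(β + γ) * t / 2 := by linarith
    rw [hs] at g1 g3
    have k1 : t ^ 2 * ((β - γ) ^ 2 / 4 + 1) = 1 := by linear_combination g1
    have k2 : t ^ 2 * (A * (β + γ) ^ 2 / 4 + 1 / A) = 1 := by linear_combination g3
    have k3 : (β - γ) ^ 2 / 4 + 1 = A * (β + γ) ^ 2 / 4 + 1 / A :=
      mul_left_cancel₀ (pow_ne_zero 2 ht) (k1.trans k2.symm)
    field_simp at k3
    linarith
  have r1 := rel a b ha hb e1 e2 nab hab
  have r2 := rel a c ha hc e1 e3 nac hac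
  have r3 := rel b c hb hc e2 e3 nbc hbc
  set A := Q d x y
  set α := B a x y z w
  set β := B b x y z w
  set γ := B c x y z w
  have u1 : A * (β - γ) * (A * (2 * α + β + γ) + (2 * α - β - γ)) = 0 := by
    linear_combination r1 - r2
  have u2 : A * (α - γ) * (A * (2 * β + α + γ) + (2 * β - α - γ)) = 0 := by
    linear_combination r1 - r3
  have v1 := (mul_eq_zero.mp u1).resolve_left (mul_ne_zero hA.ne' (sub_ne_zero.mpr nbc))
  have v2 := (mul_eq_zero.mp u2).resolve_left (mul_ne_zero hA.ne' (sub_ne_zero.mpr nac))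
  have : (A + 3) * (α - β) = 0 := by linear_combination v1 - v2
  rcases mul_eq_zero.mp this with h | h
  · linarith
  · exact nab (sub_eq_zero.mp h)

end Pool.Agent.R5.OH
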