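import Mathlib
import Pool.Agent.R5.OH.Small

namespace Pool.Agent.R5.OH

theorem three_le_m3 : 3 ≤ m 3 := by
  unfold m
  apply le_iInf
  rintro ⟨P, hc, hP⟩
  obtain ⟨a, b, c, hab, hac, hbc, rfl⟩ := Finset.card_eq_three.mp hc
  apply three_le hP hab hac hbc
  · apply pair_ord (d := c) hP (by simp) (by simp) hab
    intro e he n1 n2 n3
    simp only [Finset.mem_insert, Finset.mem_singleton] at he
    tauto
  · apply pair_ord (d := b) hP (by simp) (by simp) hac
    intro e he n1 n2 n3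
    simp only [Finset.mem_insert, Finset.mem_singleton] at he
    tauto
  · apply pair_ord (d := a) hP (by simp) (by simp) hbc
    intro e he n1 n2 n3
    simp only [Finset.mem_insert, Finset.mem_singleton] at he
    tauto

/-- four points, the first three not on a horocycle -/
theorem four_aux {P : Finset (ℝ × ℝ)} (hP : ∀ q ∈ P, 0 < q.2) {a b c d : ℝ × ℝ}
    (hPe : ∀ q, q ∈ P ↔ (q = a ∨ q = b ∨ q = c ∨ q = d))
    (hab : a ≠ b) (hac : a ≠ c) (hbc : b ≠ c)
    (hno : ∀ x y, Q a x y = 1 → Q b x y = 1 → Q c x y ≠ 1) :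
    3 ≤ (ordinary P).encard := by
  have ha : a ∈ P := (hPe a).mpr (Or.inl rfl)
  have hb : b ∈ P := (hPe b).mpr (Or.inr (Or.inl rfl))
  have hc : c ∈ P := (hPe c).mpr (Or.inr (Or.inr (Or.inl rfl)))
  apply three_le hP hab hac hbc
  · apply pair_ord (d := d) hP ha hb hab
    intro e he n1 n2 n3 x y g1 g2 g3
    rw [hPe] at he
    rcases he with he | he | he | he
    · exact n1 he
    · exact n2 he
    · exact hno x y g1 g2 (he ▸ g3)
    · exact n3 he
  · apply pair_ord (d := d) hP ha hc hac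
    intro e he n1 n2 n3 x y g1 g2 g3
    rw [hPe] at he
    rcases he with he | he | he | he
    · exact n1 he
    · exact hno x y g1 (he ▸ g3) g2
    · exact n2 he
    · exact n3 he
  · apply pair_ord (d := d) hP hb hc hbc
    intro e he n1 n2 n3 x y g1 g2 g3
    rw [hPe] at he
    rcases he with he | he | he | he
    · exact hno x y (he ▸ g3) g1 g2
    · exact n1 he
    · exact n2 he
    · exact n3 he

theorem three_le_m4 : 3 ≤ m 4 := by
  unfold m
  apply le_iInf
  rintro ⟨P, hc, hP⟩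
  obtain ⟨d, T, hdT, hins, hT⟩ := Finset.card_eq_succ.mp hc
  obtain ⟨a, b, c, hab, hac, hbc, rfl⟩ := Finset.card_eq_three.mp hT
  simp only [Finset.mem_insert, Finset.mem_singleton, not_or] at hdT
  obtain ⟨hda, hdb, hdc⟩ := hdT
  have hPe : ∀ q, q ∈ P ↔ (q = a ∨ q = b ∨ q = c ∨ q = d) := by
    intro q
    rw [← hins]
    simp only [Finset.mem_insert, Finset.mem_singleton]
    tauto
  have ha : a ∈ P := (hPe a).mpr (Or.inl rfl)
  have hb : b ∈ P := (hPe b).mpr (Or.inr (Or.inl rfl))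
  have hc' : c ∈ P := (hPe c).mpr (Or.inr (Or.inr (Or.inl rfl)))
  have hd : d ∈ P := (hPe d).mpr (Or.inr (Or.inr (Or.inr rfl)))
  show 3 ≤ (ordinary P).encard
  by_cases h1 : ∀ x y, Q a x y = 1 → Q b x y = 1 → Q c x y ≠ 1
  · exact four_aux hP hPe hab hac hbc h1
  by_cases h2 : ∀ x y, Q a x y = 1 → Q b x y = 1 → Q d x y ≠ 1
  · exact four_aux (d := c) hP (fun q => by rw [hPe q]; tauto) hab (Ne.symm hda) (Ne.symm hdb) h2
  by_cases h3 : ∀ x y, Q a x y = 1 → Q c x y = 1 → Q d x y ≠ 1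
  · exact four_aux (d := b) hP (fun q => by rw [hPe q]; tauto) hac (Ne.symm hda) (Ne.symm hdc) h3
  by_cases h4 : ∀ x y, Q b x y = 1 → Q c x y = 1 → Q d x y ≠ 1
  · exact four_aux (d := a) hP (fun q => by rw [hPe q]; tauto) hbc (Ne.symm hdb) (Ne.symm hdc) h4
  push Not at h1 h2 h3 h4
  obtain ⟨x, y, e1, e2, e3⟩ := h1
  by_cases e4 : Q d x y = 1
  · have hall : ∀ q ∈ P, Q q x y = 1 := by
      intro q hq
      rw [hPe] at hq
      rcases hq with rfl | rfl | rfl | rfl
      · exact e1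
      · exact e2
      · exact e3
      · exact e4
    exact three_le hP hab hac hbc (pair_ord' hP ha hb hab hall) (pair_ord' hP ha hc' hac hall)
      (pair_ord' hP hb hc' hbc hall)
  · exact (poncelet (hP a ha) (hP b hb) (hP c hc') (hP d hd) hab hac hbc e1 e2 e3 e4
      h2 h3 h4).elim

theorem upper {P : Finset (ℝ × ℝ)} (hP : ∀ q ∈ P, 0 < q.2) (S : Finset (Finset (ℝ × ℝ)))
    (h : ∀ a ∈ P, ∀ b ∈ P, a ≠ b → ∃ x y : ℝ, Q a x y = 1 ∧ Q b x y = 1 ∧
      3 ≤ (tr P x y).card)
    (hS : ∀ x y : ℝ, (tr P x y).card = 2 → tr P x y ∈ S) :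
    (ordinary P).encard ≤ S.card := by
  have step1 : (ordinary P).encard
      ≤ ((fun T : Finset (ℝ × ℝ) => (T : Set (ℝ × ℝ))) '' (S : Set (Finset (ℝ × ℝ)))).encard := by
    apply Set.encard_le_encard_of_injOn (f := fun H => (P : Set (ℝ × ℝ)) ∩ H)
    · rintro H ⟨hH, hc⟩
      obtain ⟨x, y, -, rfl⟩ := exists_hor hH
      rw [inter_hor P hP, Set.ncard_coe_finset] at hc
      exact ⟨tr P x y, hS x y hc, (inter_hor P hP x y).symm⟩
    · rintro H ⟨hH, hc⟩ H' ⟨hH', hc'⟩ he
      obtain ⟨x, y, -, rfl⟩ := exists_hor hH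
      obtain ⟨x', y', -, rfl⟩ := exists_hor hH'
      simp only [inter_hor P hP] at he hc hc'
      rw [Set.ncard_coe_finset] at hc hc'
      have he2 : tr P x y = tr P x' y' := Finset.coe_injective he
      obtain ⟨a, ha, b, hb, hab⟩ := Finset.one_lt_card.mp (by omega : 1 < (tr P x y).card)
      have ha' := ha
      have hb' := hb
      rw [he2] at ha' hb'
      rw [mem_tr] at ha hb ha' hb'
      obtain ⟨x0, y0, g1, g2, g3⟩ := h a ha.1 b hb.1 hab
      rcases third (hP a ha.1) (hP b hb.1) hab g1 g2 ha.2 hb.2 ha'.2 hb'.2 with k | k | k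
      · exfalso
        have : tr P x0 y0 = tr P x y := by
          ext q; rw [mem_tr, mem_tr, k q]
        rw [this] at g3
        omega
      · exfalso
        have : tr P x0 y0 = tr P x' y' := by
          ext q; rw [mem_tr, mem_tr, k q]
        rw [this] at g3
        omega
      · show hor x y = hor x' y'
        unfold hor
        ext q
        simp only [Set.mem_setOf_eq, k q]
  refine step1.trans ?_
  refine (Set.encard_image_le _ _).trans ?_
  rw [Set.encard_coe_eq_coe_finsetCard]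

theorem exists_line (n : ℕ) : ∃ P : Finset (ℝ × ℝ), P.card = n ∧ ∀ q ∈ P, q.2 = 1 := by
  refine ⟨(Finset.range n).map ⟨fun i : ℕ => ((i : ℝ), (1 : ℝ)), ?_⟩, ?_, ?_⟩
  · intro i j hij
    have := congrArg Prod.fst hij
    simpa using this
  · rw [Finset.card_map, Finset.card_range]
  · intro q hq
    obtain ⟨i, -, rfl⟩ := Finset.mem_map.mp hq
    rfl

theorem m_le {n : ℕ} (P : Finset (ℝ × ℝ)) (hcard : P.card = n) (hP : ∀ q ∈ P, 0 < q.2) :
    m n ≤ (ordinary P).encard :=
  iInf_le (fun P : {P : Finset (ℝ × ℝ) // P.card = n ∧ ∀ q ∈ P, 0 < q.2} =>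
    (ordinary P.1).encard) ⟨P, hcard, hP⟩

end Pool.Agent.R5.OH
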