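import Mathlib
import Pool.Agent.R5.OH.Upper

namespace Pool.Agent.R5.OH

theorem line_bound (n : ℕ) (hn : 3 ≤ n) (P : Finset (ℝ × ℝ)) (hcard : P.card = n)
    (h2 : ∀ q ∈ P, q.2 = 1) :
    (ordinary P).encard ≤ ((P.powersetCard 2).card : ℕ∞) := by
  have hP : ∀ q ∈ P, 0 < q.2 := by
    intro q hq
    rw [h2 q hq]; exact one_pos
  have hall : ∀ q ∈ P, Q q 1 0 = 1 := by
    intro q hq
    unfold Q fa
    rw [h2 q hq]; norm_num
  have htr : tr P 1 0 = P := by
    ext q
    rw [mem_tr]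
    exact ⟨fun h => h.1, fun h => ⟨h, hall q h⟩⟩
  have hc3 : 3 ≤ (tr P 1 0).card := by rw [htr, hcard]; exact hn
  apply upper hP (P.powersetCard 2)
  · intro a ha b hb _
    exact ⟨1, 0, hall a ha, hall b hb, hc3⟩
  · intro x y hc
    rw [Finset.mem_powersetCard]
    exact ⟨fun q hq => (mem_tr.mp hq).1, hc⟩

theorem m_le_choose (n : ℕ) (hn : 3 ≤ n) : m n ≤ ((n.choose 2 : ℕ) : ℕ∞) := by
  obtain ⟨P, hcard, h2⟩ := exists_line n
  have hP : ∀ q ∈ P, 0 < q.2 := by
    intro q hq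
    rw [h2 q hq]; exact one_pos
  have key := line_bound n hn P hcard h2
  have e : (P.powersetCard 2).card = n.choose 2 := by
    rw [Finset.card_powersetCard, hcard]
  rw [e] at key
  exact (m_le P hcard hP).trans key

end Pool.Agent.R5.OH
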