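import Mathlib
import Pool.Agent.R5.OH.Upper2

namespace Pool.Agent.R5.OH

theorem m4_upper : m 4 ≤ 3 := by
  classical
  obtain ⟨r, hr0, hr2⟩ : ∃ r : ℝ, 0 < r ∧ r ^ 2 = 4 / 3 :=
    ⟨Real.sqrt (4 / 3), Real.sqrt_pos.mpr (by norm_num), Real.sq_sqrt (by norm_num)⟩
  obtain ⟨p, hp⟩ : ∃ p : ℝ × ℝ, p = (0, 1) := ⟨_, rfl⟩
  obtain ⟨a, ha⟩ : ∃ p : ℝ × ℝ, p = (r, 1) := ⟨_, rfl⟩
  obtain ⟨b, hb⟩ : ∃ p : ℝ × ℝ, p = (-r, 1) := ⟨_, rfl⟩
  obtain ⟨c, hc⟩ : ∃ p : ℝ × ℝ, p = (0, 1 / 3) := ⟨_, rfl⟩
  have Qp : ∀ x y, Q p x y = x ^ 2 + y ^ 2 := by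
    intro x y; rw [hp]; unfold Q fa fb fc; norm_num
  have Qa : ∀ x y, Q a x y = x ^ 2 - 2 * r * x * y + (r ^ 2 + 1) * y ^ 2 := by
    intro x y; rw [ha]; unfold Q fa fb fc; norm_num; ring
  have Qb : ∀ x y, Q b x y = x ^ 2 + 2 * r * x * y + (r ^ 2 + 1) * y ^ 2 := by
    intro x y; rw [hb]; unfold Q fa fb fc; norm_num
  have Qc : ∀ x y, Q c x y = 3 * x ^ 2 + y ^ 2 / 3 := by
    intro x y; rw [hc]; unfold Q fa fb fc; norm_num; ring
  have npa : p ≠ a := by
    rw [hp, ha]; intro h; have := congrArg Prod.fst h; simp at this; exact hr0.ne this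
  have npb : p ≠ b := by
    rw [hp, hb]; intro h; have := congrArg Prod.fst h; simp at this; exact hr0.ne' this
  have npc : p ≠ c := by
    rw [hp, hc]; intro h; have := congrArg Prod.snd h; norm_num at this
  have nab : a ≠ b := by
    rw [ha, hb]; intro h; have := congrArg Prod.fst h; simp only at this; linarith
  have nac : a ≠ c := by
    rw [ha, hc]; intro h; have := congrArg Prod.snd h; norm_num at this
  have nbc : b ≠ c := by
    rw [hb, hc]; intro h; have := congrArg Prod.snd h; norm_num at this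
  obtain ⟨T, hT⟩ : ∃ T : Finset (ℝ × ℝ), T = {a, b, c} := ⟨_, rfl⟩
  have hTc : T.card = 3 := by
    rw [hT]; exact Finset.card_eq_three.mpr ⟨a, b, c, nab, nac, nbc, rfl⟩
  have hTm : ∀ q, q ∈ T ↔ q = a ∨ q = b ∨ q = c := by intro q; rw [hT]; simp
  have hpT : p ∉ T := by
    rw [hTm]; push Not; exact ⟨npa, npb, npc⟩
  obtain ⟨P, hPdef⟩ : ∃ P : Finset (ℝ × ℝ), P = insert p T := ⟨_, rfl⟩
  have hPc : P.card = 4 := by
    rw [hPdef, Finset.card_insert_of_notMem hpT, hTc]
  have hPm : ∀ q, q ∈ P ↔ q = p ∨ q = a ∨ q = b ∨ q = c := by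
    intro q; rw [hPdef, Finset.mem_insert, hTm]
  have mp : p ∈ P := (hPm p).mpr (Or.inl rfl)
  have ma : a ∈ P := (hPm a).mpr (Or.inr (Or.inl rfl))
  have mb : b ∈ P := (hPm b).mpr (Or.inr (Or.inr (Or.inl rfl)))
  have mc : c ∈ P := (hPm c).mpr (Or.inr (Or.inr (Or.inr rfl)))
  have hP : ∀ q ∈ P, 0 < q.2 := by
    intro q hq
    rw [hPm] at hq
    rcases hq with rfl | rfl | rfl | rfl
    · rw [hp]; norm_num
    · rw [ha]; norm_num
    · rw [hb]; norm_num
    · rw [hc]; norm_num
  have big : ∀ u v w, u ∈ P → v ∈ P → w ∈ P → u ≠ v → u ≠ w → v ≠ w → ∀ x y : ℝ,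
      Q u x y = 1 → Q v x y = 1 → Q w x y = 1 → 3 ≤ (tr P x y).card := by
    intro u v w hu hv hw n1 n2 n3 x y e1 e2 e3
    have : 2 < (tr P x y).card := Finset.two_lt_card.mpr
      ⟨u, mem_tr.mpr ⟨hu, e1⟩, v, mem_tr.mpr ⟨hv, e2⟩, w, mem_tr.mpr ⟨hw, e3⟩, n1, n2, n3⟩
    omega
  have hri : (1 / r) ^ 2 = 3 / 4 := by
    rw [div_pow, hr2]; norm_num
  have hrr : r * (1 / r) = 1 := by field_simp
  have A1 : Q p 1 0 = 1 := by rw [Qp]; norm_num
  have A2 : Q a 1 0 = 1 := by rw [Qa]; norm_num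
  have A3 : Q b 1 0 = 1 := by rw [Qb]; norm_num
  have B1 : Q p (1 / 2) (1 / r) = 1 := by rw [Qp]; linear_combination hri
  have B2 : Q a (1 / 2) (1 / r) = 1 := by
    rw [Qa]; linear_combination hri + (r * (1 / r) + 1 - 1) * hrr
  have B3 : Q c (1 / 2) (1 / r) = 1 := by rw [Qc]; linear_combination (1 / 3) * hri
  have C1 : Q p (-1 / 2) (1 / r) = 1 := by rw [Qp]; linear_combination hri
  have C2 : Q b (-1 / 2) (1 / r) = 1 := by
    rw [Qb]; linear_combination hri + (r * (1 / r) + 1 - 1) * hrr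
  have C3 : Q c (-1 / 2) (1 / r) = 1 := by rw [Qc]; linear_combination (1 / 3) * hri
  have bA := big p a b mp ma mb npa npb nab 1 0 A1 A2 A3
  have bB := big p a c mp ma mc npa npc nac _ _ B1 B2 B3
  have bC := big p b c mp mb mc npb npc nbc _ _ C1 C2 C3
  have key := upper hP (T.powersetCard 2) ?_ ?_
  · rw [Finset.card_powersetCard, hTc] at key
    exact (m_le P hPc hP).trans key
  · intro u hu v hv huv
    rw [hPm] at hu hv
    rcases hu with rfl | rfl | rfl | rfl <;> rcases hv with rfl | rfl | rfl | rfl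
    · exact absurd rfl huv
    · exact ⟨1, 0, A1, A2, bA⟩
    · exact ⟨1, 0, A1, A3, bA⟩
    · exact ⟨_, _, B1, B3, bB⟩
    · exact ⟨1, 0, A2, A1, bA⟩
    · exact absurd rfl huv
    · exact ⟨1, 0, A2, A3, bA⟩
    · exact ⟨_, _, B2, B3, bB⟩
    · exact ⟨1, 0, A3, A1, bA⟩
    · exact ⟨1, 0, A3, A2, bA⟩
    · exact absurd rfl huv
    · exact ⟨_, _, C2, C3, bC⟩
    · exact ⟨_, _, B3, B1, bB⟩
    · exact ⟨_, _, B3, B2, bB⟩
    · exact ⟨_, _, C3, C2, bC⟩
    · exact absurd rfl huv
  · intro x y hc2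
    have hnp : Q p x y ≠ 1 := by
      intro h1
      have hpin : p ∈ tr P x y := mem_tr.mpr ⟨mp, h1⟩
      obtain ⟨q', hq', hne⟩ : ∃ q' ∈ tr P x y, q' ≠ p := by
        by_contra hcon
        push Not at hcon
        have : (tr P x y).card ≤ 1 := Finset.card_le_one.mpr
          (fun u hu v hv => (hcon u hu).trans (hcon v hv).symm)
        omega
      rw [mem_tr, hPm] at hq'
      obtain ⟨hq1, hq2⟩ := hq'
      have h1' := h1
      rw [Qp] at h1'
      rcases hq1 with rfl | rfl | rfl | rfl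
      · exact hne rfl
      · have h2 := hq2
        rw [Qa] at h2
        have f : y * (r * y - 2 * x) = 0 := by
          have : r * (y * (r * y - 2 * x)) = 0 := by linear_combination h2 - h1'
          exact (mul_eq_zero.mp this).resolve_left hr0.ne'
        rcases mul_eq_zero.mp f with g | g
        · have : Q b x y = 1 := by rw [Qb, g]; rw [g] at h1'; linear_combination h1'
          have := big p q' b mp ma mb npa npb nab x y h1 hq2 this
          omega
        · have hx : r * y = 2 * x := by linarith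
          have hx2 : 4 / 3 * y ^ 2 = 4 * x ^ 2 := by
            have : (r * y) ^ 2 = (2 * x) ^ 2 := by rw [hx]
            rw [mul_pow, hr2] at this; linarith
          have : Q c x y = 1 := by rw [Qc]; linarith
          have := big p q' c mp ma mc npa npc nac x y h1 hq2 this
          omega
      · have h2 := hq2
        rw [Qb] at h2
        have f : y * (r * y + 2 * x) = 0 := by
          have : r * (y * (r * y + 2 * x)) = 0 := by linear_combination h2 - h1'
          exact (mul_eq_zero.mp this).resolve_left hr0.ne'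
        rcases mul_eq_zero.mp f with g | g
        · have : Q a x y = 1 := by rw [Qa, g]; rw [g] at h1'; linear_combination h1'
          have := big p a q' mp ma mb npa npb nab x y h1 this hq2
          omega
        · have hx : r * y = -2 * x := by linarith
          have hx2 : 4 / 3 * y ^ 2 = 4 * x ^ 2 := by
            have : (r * y) ^ 2 = (-2 * x) ^ 2 := by rw [hx]
            rw [mul_pow, hr2] at this; linarith
          have : Q c x y = 1 := by rw [Qc]; linarith
          have := big p q' c mp mb mc npb npc nbc x y h1 hq2 this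
          omega
      · have h2 := hq2
        rw [Qc] at h2
        have hx2 : x ^ 2 = 1 / 4 := by linarith
        have hy2 : y ^ 2 = 3 / 4 := by linarith
        have hprod : (2 * r * x * y) ^ 2 = 1 := by
          have : (2 * r * x * y) ^ 2 = 4 * r ^ 2 * x ^ 2 * y ^ 2 := by ring
          rw [this, hr2, hx2, hy2]; norm_num
        have hfac : (2 * r * x * y - 1) * (2 * r * x * y + 1) = 0 := by
          linear_combination hprod
        rcases mul_eq_zero.mp hfac with g0 | g0
        · have g : 2 * r * x * y = 1 := by linarith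
          have : Q a x y = 1 := by rw [Qa, hr2, hx2, hy2, g]; norm_num
          have := big p a q' mp ma mc npa npc nac x y h1 this hq2
          omega
        · have g : 2 * r * x * y = -1 := by linarith
          have : Q b x y = 1 := by rw [Qb, hr2, hx2, hy2, g]; norm_num
          have := big p b q' mp mb mc npb npc nbc x y h1 this hq2
          omega
    rw [Finset.mem_powersetCard]
    refine ⟨?_, hc2⟩
    intro q hq
    rw [mem_tr, hPm] at hq
    rw [hTm]
    rcases hq.1 with rfl | h | h | h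
    · exact absurd hq.2 hnp
    · exact Or.inl h
    · exact Or.inr (Or.inl h)
    · exact Or.inr (Or.inr h)

end Pool.Agent.R5.OH
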